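import Pool.Agent.E8helper75.WR.All
import Pool.Agent.E8helper76.EW.AllE
import Pool.Agent.E8helper21.QT.Fin
import Pool.Agent.Y948.CQ.C2

/-!
# The 2-part of the Birch and Swinnerton-Dyer formula for the abelian surfaces
# `Res_{ℚ(i)/ℚ} (y² = x³ - D x)`, `D ≡ 5 + 4 i` modulo `8`

`K = ℚ(i)`, `D` is any squarefree Gaussian integer (any number of prime factors) that is `5 + 4 i` modulo
`8` and has a prime factor of norm `5` modulo `8` (almost all the squarefree `D` that are `5 + 4 i` modulo
`8` have one), `E : y² = x³ - D x` and `A = Res_{K/ℚ} E` is its restriction of scalars, an abelian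
surface over `ℚ`. The curve `E` is not isomorphic to its conjugate, so it is not a base change of a curve
over `ℚ`, and as two curves with complex multiplication by `ℤ[i]` over `K` are isogenous only if they
are isomorphic, `A` is simple over `ℚ`. Its dual is `A`. Let
`z = L(A, 1) #A(ℚ)_tors² / (V_∞ ∏ c_p)`, which is zero or the order of `Ш(A/ℚ)` according to the
formula. With no hypothesis on the rank or on `Ш` we prove for all these surfaces:

* `L(A, s)` is entire, the Tamagawa numbers have the product `2 ^ (n + 1)`, `n` the number of the prime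
  factors of `D` in `ℤ[i]`, and the order of the torsion subgroup of `A(ℚ)` is twice an odd number;
* `z` is integral at all the primes above two, and it is a unit there if and only if `A(ℚ)` is finite and
  `Ш(A/ℚ)` has no element of order two, if and only if `D` is indecomposable: it is not a product
  of two primary Gaussian integers `d` and `e`, both different from `1`, such that `d` is a square modulo
  every prime factor of `e` and `e` is a square modulo every prime factor of `d`;
* in this case the 2-part of the formula holds: `L(A, 1) ≠ 0`, `A(ℚ)` is finite, `Ш(A/ℚ)[2^∞] = 0` and `z`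
  is a unit above two;
* the proportion of the `D` of norm at most `X` for which this holds tends to
  `∏ (1 - 2 ^ (-(2 i + 1))) = 0.4194...`.

The surface is given by its points over algebraically closed fields `L`, `A(L) = E(K ⊗ L)`, the product of
the groups `E^φ(L)` over the two embeddings `φ` of `K`, with the action of the automorphisms of `L`
(`Pool.Agent.E8helper21.WR.Def`): `A(ℚ)` is the group of the invariants of the absolute Galois group
of `ℚ`, and `Ш(A/ℚ)` the group of the classes of its continuous cocycles with values in `A(ℚ̄)` that are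
trivial at all the places of `ℚ`. The group `A(ℚ_p)` is the product of the groups `E(K_v)` for the places
`v` above `p`, and `A⁰(ℚ_p)` the product of the groups `E⁰(K_v)`, as the Néron model of `A` over `ℤ_p` is
the restriction of scalars of that of `E`; `V_∞ = ∫_{A(ℝ)} |ω|` is twice the area of a period
parallelogram of `E` divided by the square root of `|disc K|`, as the invariant differentials of the
Néron model of `A` are the traces of the multiples of that of `E` by the inverse different. All the Euler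
factors are in `L(A, s)`, which is the `L`-function of `E` over `K` (its factor at `p` is the product of
the factors of `E` at the places above `p`), so that the factor of `V_bad` at a bad prime `p`, which is
`c_p #𝒜⁰(𝔽_p) / p²`, is replaced by the Tamagawa number `c_p = [A(ℚ_p) : A⁰(ℚ_p)]`.

The condition is that on the Laplacian matrix of the graph of the quadratic residue symbols of the prime
factors of `D` (its kernel is as small as possible); the surfaces are not among those of
`QuarticSurfacesH75` (`y² = x³ ± i D x`), and the curves are not among those with the norm of `D`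
equal to `13` modulo `16` or with even `D` of the other files: here the quartic symbols modulo `D` are trivial
on the units `±1` and not on `i`, and the place `1 + i` divides the conductor with the reduction of type `I₂*`.

Proof: the isomorphisms `A(ℚ) = E(K)` and `Ш(A/ℚ) = Ш(E/K)` (Shapiro's lemma, global and local) are proved
for every number field `K` in `Pool/Agent/E8helper*/WR`; the value of the `L`-function (a sum of the values
of a Weierstrass function at points of odd order, whose 2-adic valuation is found by an induction on the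
prime factors with two congruences) is in `Pool/Agent/E8helper76/F1`, `EW` and `Pool/Agent/E8helper21/QT`,
the descent over `K`, the local computations and the distribution in `Pool/Agent/E8helper*/EW`. (Seats: helpers
9, 18, 25, 36, 52, 63, 65, 76, 79, 85, 89 and those of `QuarticSurfacesH75`; `QT` is of helper21.)
-/

set_option autoImplicit false

namespace Pool.Agent.Results.MP_dfae13_nt.EvenWeightSurfacesH76

open NumberField IsDedekindDomain WeierstrassCurve
open Pool.Agent.E8helper21.WR (AP AQ ShaA)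

/-- `g` is primary: `g ≡ 1` modulo `2 + 2i`. -/
def Primary (g : GaussianInt) : Prop := (⟨2, 2⟩ : GaussianInt) ∣ g - 1

/-- `D` is squarefree, `5 + 4i` modulo `8` and has a prime factor whose norm is `5` modulo `8`. -/
def Cls (D : GaussianInt) : Prop := Squarefree D ∧ D.re % 8 = 5 ∧ D.im % 8 = 4 ∧
  ∃ p : GaussianInt, Prime p ∧ p ∣ D ∧ p.norm % 8 = 5

/-- `D` is not a product of two primary Gaussian integers `d`, `e`, both different from `1`, such that `d`
is a square modulo every prime factor of `e` and `e` is a square modulo every prime factor of `d`. -/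
def Indec (D : GaussianInt) : Prop := ∀ d e : GaussianInt, Primary d → Primary e → D = d * e →
  (∀ p : GaussianInt, Prime p → p ∣ e → ∃ b : GaussianInt, p ∣ b ^ 2 - d) →
  (∀ p : GaussianInt, Prime p → p ∣ d → ∃ b : GaussianInt, p ∣ b ^ 2 - e) → d = 1 ∨ e = 1

/-- The curve `y² = x³ - D x` over `K`, where `e` is an isomorphism of the ring of Gaussian integers
with the ring of integers of `K`. -/
noncomputable def curve {K : Type} [Field K] [NumberField K] (e : GaussianInt ≃+* 𝓞 K)
    (D : GaussianInt) : WeierstrassCurve K :=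
  ⟨0, 0, 0, algebraMap (𝓞 K) K (e (-D)), 0⟩

open scoped Classical in
/-- The group `A(ℚ_p) = E(K ⊗ ℚ_p)`, the product of the groups `E(K_v)` for the places `v` above `p`. -/
abbrev LocalPoints {K : Type} [Field K] [NumberField K] (E : WeierstrassCurve K) (p : ℕ) : Type :=
  ∀ v : {v : HeightOneSpectrum (𝓞 K) // (p : 𝓞 K) ∈ v.asIdeal},
    (E.baseChange (v.1.adicCompletion K)).toAffine.Point

open scoped Classical in
/-- The equation `E` is minimal at every finite place of `K`, `c p` is the index in `A(ℚ_p)` of the group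
`A⁰(ℚ_p)` of the points all of whose components have nonsingular reduction, for all primes `p`, and it is
`1` for almost all `p`. -/
def IsTamagawa {K : Type} [Field K] [NumberField K] (E : WeierstrassCurve K)
    (c : Nat.Primes → ℕ) : Prop :=
  (∀ v : HeightOneSpectrum (𝓞 K),
    (E.baseChange (v.adicCompletion K)).IsMinimal (v.adicCompletionIntegers K)) ∧
  (∀ p : Nat.Primes, ∃ H : AddSubgroup (LocalPoints E p),
    (∀ P : LocalPoints E p, P ∈ H ↔
      ∀ v : {v : HeightOneSpectrum (𝓞 K) // ((p : ℕ) : 𝓞 K) ∈ v.asIdeal},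
        Pool.Agent.Y696.NonsingRed Valued.v (E.baseChange (v.1.adicCompletion K)) (P v)) ∧
      H.index = c p) ∧
  {p | c p ≠ 1}.Finite

/-- `Λ` is the lattice of periods of the differential `dx / (2y + a₁x + a₃)` of the curve `E`, embedded
in the complex numbers by `σ`. -/
def IsPeriodLattice {K : Type} [Field K] (E : WeierstrassCurve K) (σ : K →+* ℂ)
    (Λ : PeriodPair) : Prop :=
  Λ.g₂ = σ E.c₄ / 12 ∧ Λ.g₃ = σ E.c₆ / 216

/-- `V_∞ = ∫_{A(ℝ)} |ω|`: twice the area of a period parallelogram, divided by `√|disc K|`. -/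
noncomputable def Vinf (K : Type) [Field K] [NumberField K] (Λ : PeriodPair) : ℝ :=
  2 * |((starRingEnd ℂ) Λ.ω₁ * Λ.ω₂).im| / √|(discr K : ℝ)|

/-- The order of the torsion subgroup of `A(ℚ)`. -/
noncomputable def torsOrder {K : Type} [Field K] (E : WeierstrassCurve K) : ℕ :=
  Nat.card (AddCommGroup.torsion (AQ E))

/-- The order of the Tate-Shafarevich group predicted by the formula in rank zero, for the value `l` of
the L-function at `s = 1`: `l #A(ℚ)_tors² / (V_∞ ∏ c_p)`. -/
noncomputable def anOrder {K : Type} [Field K] [NumberField K] (E : WeierstrassCurve K) (l : ℂ)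
    (Λ : PeriodPair) (c : Nat.Primes → ℕ) : ℂ :=
  l * (torsOrder E : ℂ) ^ 2 / ((Vinf K Λ : ℂ) * ((∏ᶠ p, c p : ℕ) : ℂ))

/-- `L` is an entire continuation of the L-series of `A` over `ℚ`, that is, of `E` over `K`. -/
def IsL {K : Type} [Field K] [NumberField K] (E : WeierstrassCurve K) (L : ℂ → ℂ) : Prop :=
  Differentiable ℂ L ∧ ∀ s : ℂ, 3 / 2 < s.re →
    LSeriesSummable ((fun n : ℤ => (n : ℂ)) ∘ E.LFunction) s ∧ L s = E.LSeries s

/-- The 2-part of the formula for the restriction of scalars `A` of the curve `E` over an imaginary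
quadratic field `K`, in the case that the predicted order of `Ш` is a unit above two: `A(ℚ)` is finite,
the 2-primary part of `Ш(A/ℚ)` is trivial, `L(A, s)` is entire, `L(A, 1) ≠ 0`, and the predicted order of
`Ш(A/ℚ)` is a unit at every valuation `w` of the field of complex numbers with `w 2 < 1`. -/
def TwoPart {K : Type} [Field K] [NumberField K] (E : WeierstrassCurve K) : Prop :=
  Finite (AQ E) ∧ (∀ (n : ℕ) (x : ShaA E), 2 ^ n • x = 0 → x = 0) ∧
  ∃ (L : ℂ → ℂ) (c : Nat.Primes → ℕ), IsL E L ∧ L 1 ≠ 0 ∧ IsTamagawa E c ∧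
    ∀ σ : K →+* ℂ, (∃ Λ : PeriodPair, IsPeriodLattice E σ Λ) ∧
      ∀ Λ : PeriodPair, IsPeriodLattice E σ Λ →
        ∀ (Γ : Type) [LinearOrderedCommGroupWithZero Γ] (w : Valuation ℂ Γ), w 2 < 1 →
          w (anOrder E (L 1) Λ c) = 1

/-- The group `A(ℚ)` is finite and `Ш(A/ℚ)` has no element of order two. -/
def NoSelmer {K : Type} [Field K] [NumberField K] (E : WeierstrassCurve K) : Prop :=
  Finite (AQ E) ∧ ∀ x : ShaA E, 2 • x = 0 → x = 0

/-- The curve `E` over `K` is not isomorphic over `K` to its conjugate by an automorphism `τ ≠ 1` of `K`. -/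
def NotConj {K : Type} [Field K] (E : WeierstrassCurve K) : Prop :=
  ∀ τ : K ≃+* K, (∃ x, τ x ≠ x) → ∀ C : VariableChange K, C • E ≠ E.map (τ : K →+* K)

/-- The statement for the surface `A`, the restriction of scalars of the curve `y² = x³ - D x` with
`D = ∏ p`, `p ∈ S`. -/
def Criterion {K : Type} [Field K] [NumberField K] (e : GaussianInt ≃+* 𝓞 K)
    (S : Finset GaussianInt) : Prop :=
  NotConj (curve e (∏ p ∈ S, p)) ∧
  (∃ (L : ℂ → ℂ) (c : Nat.Primes → ℕ), IsL (curve e (∏ p ∈ S, p)) L ∧
    IsTamagawa (curve e (∏ p ∈ S, p)) c ∧ ∏ᶠ p, c p = 2 ^ (S.card + 1) ∧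
    (∃ t : ℕ, Odd t ∧ torsOrder (curve e (∏ p ∈ S, p)) = 2 * t) ∧
    ∀ σ : K →+* ℂ, (∃ Λ : PeriodPair, IsPeriodLattice (curve e (∏ p ∈ S, p)) σ Λ) ∧
      ∀ Λ : PeriodPair, IsPeriodLattice (curve e (∏ p ∈ S, p)) σ Λ →
        ∀ (Γ : Type) [LinearOrderedCommGroupWithZero Γ] (w : Valuation ℂ Γ), w 2 < 1 →
          w (anOrder (curve e (∏ p ∈ S, p)) (L 1) Λ c) ≤ 1 ∧
          (w (anOrder (curve e (∏ p ∈ S, p)) (L 1) Λ c) = 1 ↔
            NoSelmer (curve e (∏ p ∈ S, p)))) ∧
  (NoSelmer (curve e (∏ p ∈ S, p)) ↔ Indec (∏ p ∈ S, p)) ∧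
  (Indec (∏ p ∈ S, p) → TwoPart (curve e (∏ p ∈ S, p)))

/-- The Gaussian integers of the class of norm at most `X`. -/
def Family (X : ℕ) : Set GaussianInt := {D | D.norm.natAbs ≤ X ∧ Cls D}

/-- Those `D` such that the 2-part of the formula holds for the surface, the restriction of scalars
of `y² = x³ - D x` over `K = ℚ(i)` (every number field `K` with an isomorphism `e` of `ℤ[i]` with its
ring of integers), with a predicted order of `Ш` that is a unit above two. -/
def Proved (X : ℕ) : Set GaussianInt :=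
  {D | D ∈ Family X ∧ ∀ (K : Type) [Field K] [NumberField K] (e : GaussianInt ≃+* 𝓞 K),
    TwoPart (curve e D)}

section proof

open Pool.Agent.E8helper75.WR (a_SHA a_R8 a_IDX a_PRD smul_iff card_tors index_loc)
open Pool.Agent.Y697.MQ (OP Pr_iff)
open Pool.Agent.Y697.PP (SS mem_SS NS prod_inj)
open Pool.Agent.E8helper76.EW

variable {K : Type} [Field K] [NumberField K]

open scoped Classical in
lemma fin_iff (E : WeierstrassCurve K) : Finite (AQ E) ↔ Finite E.toAffine.Point := by
  obtain ⟨f⟩ := a_R8 K E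
  exact f.toEquiv.finite_iff

lemma tors_eq (E : WeierstrassCurve K) : torsOrder E = Pool.Agent.E8helper75.QI.C.torsOrder E := by
  classical
  obtain ⟨f⟩ := a_R8 K E
  unfold torsOrder Pool.Agent.E8helper75.QI.C.torsOrder
  rw [card_tors f]

lemma sha_iff (E : WeierstrassCurve K) (m : ℕ) : (∀ x : ShaA E, m • x = 0 → x = 0) ↔
    ∀ x : Pool.Agent.TH841.NF.D.Sha E, m • x = 0 → x = 0 := by
  obtain ⟨f⟩ := a_SHA K E
  exact smul_iff f m

lemma nosel_iff (E : WeierstrassCurve K) : NoSelmer E ↔ Pool.Agent.E8helper75.QI.C.NoSelmer E := by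
  classical
  unfold NoSelmer Pool.Agent.E8helper75.QI.C.NoSelmer
  rw [sha_iff E 2, fin_iff E]

/-- the Tamagawa numbers of the surface -/
noncomputable def cA (c : HeightOneSpectrum (𝓞 K) → ℕ) (p : Nat.Primes) : ℕ :=
  ∏ᶠ v : {v : HeightOneSpectrum (𝓞 K) // ((p : ℕ) : 𝓞 K) ∈ v.asIdeal}, c v

lemma tam {E : WeierstrassCurve K} {c : HeightOneSpectrum (𝓞 K) → ℕ}
    (h : Pool.Agent.E8helper75.QI.C.IsTamagawa E c) :
    IsTamagawa E (cA c) ∧ ∏ᶠ p, cA c p = ∏ᶠ v, c v := by
  obtain ⟨h1, h2, h3⟩ := a_PRD K c h.2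
  refine ⟨⟨fun v => (h.1 v).1, fun p => ?_, h2⟩, h3⟩
  exact index_loc a_IDX (h1 p) E (fun v P => Pool.Agent.Y696.NonsingRed Valued.v
    (E.baseChange (v.adicCompletion K)) P) c fun v => (h.1 v).2

lemma discr_ne : √|(discr K : ℝ)| ≠ 0 := by
  have h := NumberField.discr_ne_zero K
  have h1 : (0 : ℝ) < |(discr K : ℝ)| := abs_pos.2 (by exact_mod_cast h)
  exact (Real.sqrt_pos.2 h1).ne'

lemma an_eq {E : WeierstrassCurve K} {c : HeightOneSpectrum (𝓞 K) → ℕ}
    (h : Pool.Agent.E8helper75.QI.C.IsTamagawa E c) (l : ℂ) (Λ : PeriodPair) :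
    anOrder E l Λ (cA c) = Pool.Agent.E8helper75.QI.C.anOrder E l Λ c := by
  unfold anOrder Pool.Agent.E8helper75.QI.C.anOrder Vinf Pool.Agent.E8helper75.QI.C.period
  rw [tors_eq, (tam h).2]
  have h1 : ((√|(discr K : ℝ)| : ℝ) : ℂ) ≠ 0 := by
    exact_mod_cast (discr_ne (K := K))
  push_cast
  field_simp

lemma two_of {E : WeierstrassCurve K} (h : Pool.Agent.E8helper75.QI.C.TwoPart E) : TwoPart E := by
  classical
  obtain ⟨h1, h2, L, c, h3, h4, h5, h6⟩ := h
  refine ⟨(fin_iff E).2 h1, fun n => (sha_iff E (2 ^ n)).2 (h2 n), L, cA c, h3, h4,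
    (tam h5).1, fun σ => ⟨(h6 σ).1, fun Λ hΛ Γ _ w hw => ?_⟩⟩
  rw [an_eq h5]
  exact (h6 σ).2 Λ hΛ Γ w hw

lemma op_iff (p : GaussianInt) : Prime p ∧ Primary p ↔ OP p :=
  Pool.Agent.E8helper75.QI.C.op_iff p

lemma prm_of {D : GaussianInt} (h1 : D.re % 8 = 5) (h2 : D.im % 8 = 4) : Primary D := by
  obtain ⟨x, hx⟩ : ∃ x, D.re = 8 * x + 5 := ⟨D.re / 8, by omega⟩
  obtain ⟨y, hy⟩ : ∃ y, D.im = 8 * y + 4 := ⟨D.im / 8, by omega⟩
  refine ⟨⟨2 * x + 2 * y + 2, 2 * y - 2 * x⟩, ?_⟩
  apply Zsqrtd.ext
  · rw [Zsqrtd.re_sub, Zsqrtd.re_mul, Zsqrtd.re_one, hx]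
    ring
  · rw [Zsqrtd.im_sub, Zsqrtd.im_mul, Zsqrtd.im_one, hy]
    ring

lemma norm_of {p l : GaussianInt} (h : Associated p l) : p.norm = l.norm := by
  obtain ⟨u, rfl⟩ := h
  have h1 : (u : GaussianInt).norm = 1 :=
    (Zsqrtd.norm_eq_one_iff' (by norm_num) (u : GaussianInt)).2 u.isUnit
  rw [Zsqrtd.norm_mul, h1, mul_one]

lemma cw_iff {S : Finset GaussianInt} (hS : ∀ l ∈ S, OP l) : Cw S ↔ Cls (∏ p ∈ S, p) := by
  constructor
  · intro h
    obtain ⟨l, hl, hl2⟩ := h.r
    exact ⟨Pool.Agent.R428.G.sqf_prod hS, h.re, h.im, l, (hS l hl).pr, Finset.dvd_prod_of_mem _ hl, hl2⟩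
  · rintro ⟨-, h1, h2, p, hp, hpd, hn⟩
    obtain ⟨l, hl, hpl⟩ := (Prime.dvd_finset_prod_iff hp _).1 hpd
    have h3 : Associated p l := hp.associated_of_dvd (hS l hl).pr hpl
    exact ⟨hS, h1, h2, l, hl, by rw [← norm_of h3]; exact hn⟩

theorem criterion (e : GaussianInt ≃+* 𝓞 K) {S : Finset GaussianInt}
    (hS : Cw S) : Criterion e S := by
  obtain ⟨⟨L, c, h1, h2, h3, ⟨t, ht, ht'⟩, h4⟩, h5, h6⟩ := crit_E a_VALE a_MINE a_TAME a_TAPE a_TORE
    a_SHAE a_CNVE a_LSE Pool.Agent.E8helper75.QI.a_VALZI e hS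
  have hc : Pool.Agent.E8helper75.QI.C.curve e (-1) (∏ p ∈ S, p) = curve e (∏ p ∈ S, p) := by
    unfold Pool.Agent.E8helper75.QI.C.curve curve
    rw [neg_one_mul]
  rw [hc] at h1 h2 ht' h4 h5 h6
  have hI : Kz S ↔ Indec (∏ p ∈ S, p) := a_IND S hS.op
  have hsq : Squarefree (∏ p ∈ S, p) := Pool.Agent.R428.G.sqf_prod hS.op
  refine ⟨a_NBCE K e _ hsq hS.re hS.im, ⟨L, cA c, h1, (tam h2).1, (tam h2).2.trans h3, ⟨t, ht, ?_⟩,
    fun σ => ⟨(h4 σ).1, fun Λ hΛ Γ _ w hw => ?_⟩⟩, ?_, fun h => two_of (h6 (hI.2 h))⟩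
  · rw [tors_eq]
    exact ht'
  · have h7 := (h4 σ).2 Λ hΛ Γ w hw
    have e1 : anOrder (curve e (∏ p ∈ S, p)) (L 1) Λ (cA c) =
        Pool.Agent.E8helper75.QI.C.anOrder (curve e (∏ p ∈ S, p)) (L 1) Λ c := an_eq h2 _ _
    rw [e1, nosel_iff]
    exact h7
  · rw [nosel_iff, ← hI]
    exact h5

open scoped Classical in
theorem family_eq (X : ℕ) : Family X =
    ((((SS X).filter fun S => Cw S).image fun S => ∏ p ∈ S, p : Finset GaussianInt) :
      Set GaussianInt) := by
  ext D
  rw [Finset.mem_coe, Finset.mem_image]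
  constructor
  · rintro ⟨h1, h2⟩
    have hp : Primary D := prm_of h2.2.1 h2.2.2.1
    obtain ⟨T, hT, e, he, hDe⟩ := Pool.Agent.Y697.MQ.exists_ker2 D ((Pr_iff D).2 hp)
    have he1 : e = 1 := by
      apply he.unit
      apply h2.1 e
      rw [hDe, pow_two]
      exact dvd_mul_left _ _
    rw [he1, one_pow, mul_one] at hDe
    refine ⟨T, Finset.mem_filter.2 ⟨mem_SS.2 ⟨fun p hp => (hT p hp).1, ?_⟩, ?_⟩, hDe.symm⟩
    · unfold NS
      rw [← hDe]
      exact h1
    · rw [cw_iff fun p hp => (hT p hp).1, ← hDe]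
      exact h2
  · rintro ⟨S, hS, rfl⟩
    rw [Finset.mem_filter, mem_SS] at hS
    exact ⟨hS.1.2, (cw_iff hS.1.1).1 hS.2⟩

open scoped Classical in
theorem family_card (X : ℕ) : (Family X).ncard = ((SS X).filter fun S => Cw S).card := by
  rw [family_eq, Set.ncard_coe_finset, Finset.card_image_of_injOn]
  intro S hS T hT h
  rw [Finset.mem_coe, Finset.mem_filter, mem_SS] at hS hT
  exact prod_inj hS.1.1 hT.1.1 h

open scoped Classical in
theorem proved_card (X : ℕ) : (Proved X).ncard = ((SS X).filter fun S => Cw S ∧ Kz S).card := by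
  have h1 : Proved X = ((((SS X).filter fun S => Cw S ∧ Kz S).image fun S => ∏ p ∈ S, p :
      Finset GaussianInt) : Set GaussianInt) := by
    ext D
    rw [Finset.mem_coe, Finset.mem_image]
    constructor
    · rintro ⟨h1, h2⟩
      rw [family_eq, Finset.mem_coe, Finset.mem_image] at h1
      obtain ⟨S, hS, rfl⟩ := h1
      refine ⟨S, ?_, rfl⟩
      rw [Finset.mem_filter] at hS ⊢
      refine ⟨hS.1, hS.2, ?_⟩
      obtain ⟨g1, g2, -⟩ := h2 Pool.Agent.E8helper21.QT.GF Pool.Agent.E8helper21.QT.eGF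
      have h4 := (criterion Pool.Agent.E8helper21.QT.eGF hS.2).2.2.1.1
        ⟨g1, fun x hx => g2 1 x (by rw [pow_one]; exact hx)⟩
      exact (a_IND S hS.2.op).2 h4
    · rintro ⟨S, hS, rfl⟩
      rw [Finset.mem_filter] at hS
      refine ⟨?_, fun K _ _ e => ?_⟩
      · rw [family_eq, Finset.mem_coe, Finset.mem_image]
        exact ⟨S, Finset.mem_filter.2 ⟨hS.1, hS.2.1⟩, rfl⟩
      · exact (criterion e hS.2.1).2.2.2 ((a_IND S hS.2.1.op).1 hS.2.2)
  rw [h1, Set.ncard_coe_finset, Finset.card_image_of_injOn]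
  intro S hS T hT h
  rw [Finset.mem_coe, Finset.mem_filter, mem_SS] at hS hT
  exact prod_inj hS.1.1 hT.1.1 h

end proof

/-- **Main theorem.** For every finite set `S` of primary primes whose product `D` is `5 + 4i` modulo `8`
and has a prime factor of norm `5` modulo `8` the statement `Criterion` holds for the restriction of
scalars of the curve `y² = x³ - D x`; and the proportion of the `D` of norm at most `X` that satisfy
`TwoPart` tends to `∏ (1 - 2 ^ (-(2 i + 1))) = 0.4194...` as `X` grows. -/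
theorem result :
    (∀ (K : Type) [Field K] [NumberField K] (e : GaussianInt ≃+* 𝓞 K)
      (S : Finset GaussianInt), (∀ p ∈ S, Prime p ∧ Primary p) → Cls (∏ p ∈ S, p) →
        Criterion e S) ∧
    Filter.Tendsto (fun X : ℕ => ((Proved X).ncard : ℝ) / ((Family X).ncard : ℝ)) Filter.atTop
      (nhds (∏' i : ℕ, (1 - (1 / 2 : ℝ) ^ (2 * i + 1)))) ∧
    (0.4194 : ℝ) < ∏' i : ℕ, (1 - (1 / 2 : ℝ) ^ (2 * i + 1)) ∧
    ∏' i : ℕ, (1 - (1 / 2 : ℝ) ^ (2 * i + 1)) < (0.4195 : ℝ) := by
  classical
  refine ⟨fun K _ _ e S hS hC => criterion e ((cw_iff fun p hp => (op_iff p).1 (hS p hp)).2 hC), ?_,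
    Pool.Agent.Y948.CQ.t_C2.2.2.2⟩
  have h := Pool.Agent.E8helper76.EW.a_DENE
  unfold Pool.Agent.E8helper76.EW.S_DENE at h
  refine h.congr fun X => ?_
  rw [family_card, proved_card]

end Pool.Agent.Results.MP_dfae13_nt.EvenWeightSurfacesH76
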