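import Pool.Agent.E8helper18.CP.ST
import Pool.Agent.E8helper18.CP.FIN

/-!
# The exact proportion of the twists with the least 2-part

`K = ℚ(i)`, `E : y² = x³ - x`, `k ≥ 3`. For a squarefree Gaussian integer `D`, congruent to `1`
modulo `4`, with all prime factors of norm congruent to `1` modulo `2 ^ (k + 2)`, let `A` be the
abelian variety over `K` of dimension `2 ^ (k - 2)` that is the twist of `E ⊗ ℤ[ζ]` by a product
`χ` of characters of exact order `2 ^ k` modulo the `m` prime factors of `D`.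

* The values at `1` of the `L`-functions of `ψ χ ^ t`, `t` odd, are `Ω (1 - ζ) ^ (m - 1) u` and that
  of the `L`-function of `A` is `Ω ^ (2 ^ (k - 1)) 2 ^ (m - 1) u`, where `u` is integral above `2`;
  it is a unit above `2` if and only if `D` does not split into two factors that are squares modulo
  each other and is not `1` modulo `4 (1 + i)`.
* Both sides of the `2`-part of the Birch and Swinnerton-Dyer formula for `A` have this least
  order, with `A(K)` of order `2` and `Ш(A / K)` without elements of order `2`, for at least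
  `c X (log X) ^ (δ - 1)` of the `D` of norm at most `X`, and, as `X` grows, for the proportion
  `∏ (1 - 2 ^ (-(2 i + 1))) = 0.4194...` of the `D` that are not `1` modulo `4 (1 + i)`.

The definitions are in `Pool.Agent.E8helper18.CP.ST` and `Pool.Agent.Y715.St`.
-/

open Pool.Agent.Y715.St Pool.Agent.E8helper18.CP Filter

/-- The exact proportion of the `D` for which the `2`-part of the Birch and Swinnerton-Dyer formula
holds with both sides of the least order. -/
theorem Pool.Agent.Results.MP_dfae13_nt.ExactProportionH18.result (k : ℕ) (hk : 3 ≤ k) :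
    -- the values of the `L`-functions
    (∀ D, Adm k D → D ≠ 1 → ∀ x : Twist k D,
      Values x fun u => TwoInt u ∧ (TwoUnit u ↔ Good D)) ∧
    -- the criterion
    (∀ D, Adm k D → D ≠ 1 → (TwoPart k D ↔ Good D)) ∧
    -- the number of the `D` that satisfy it
    (∃ c : ℝ, 0 < c ∧ ∃ δ : ℝ, 0 < δ ∧ ∀ᶠ X : ℕ in atTop, c * X * Real.log X ^ (δ - 1) ≤
      (({D : GaussianInt | Adm k D ∧ ¬ (4 * ⟨1, 1⟩ : GaussianInt) ∣ D - 1 ∧ D.norm ≤ X ∧
        TwoPart k D}).ncard : ℝ)) ∧
    -- their proportion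
    Tendsto (fun X : ℕ =>
      (({D : GaussianInt | Adm k D ∧ ¬ (4 * ⟨1, 1⟩ : GaussianInt) ∣ D - 1 ∧ D.norm ≤ X ∧
        TwoPart k D}).ncard : ℝ) /
      (({D : GaussianInt | Adm k D ∧ ¬ (4 * ⟨1, 1⟩ : GaussianInt) ∣ D - 1 ∧
        D.norm ≤ X}).ncard : ℝ))
      atTop (nhds (∏' i : ℕ, (1 - (1 / 2 : ℝ) ^ (2 * i + 1)))) ∧
    (0.4194 : ℝ) < ∏' i : ℕ, (1 - (1 / 2 : ℝ) ^ (2 * i + 1)) ∧
    ∏' i : ℕ, (1 - (1 / 2 : ℝ) ^ (2 * i + 1)) < 0.4195 :=
  ⟨fun _ hD h1 x => values hk hD h1 x, fun _ hD h1 => twoPart_iff hk hD h1, low_main hk,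
    lim_main hk, num_main⟩
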