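import Pool.Agent.E8helper18.CP3.ST
import Pool.Agent.E8helper18.CP3.FIN3
import Pool.Agent.E8helper26.CP3.EPA

/-!
# The exact proportion of the twists with the least 3-part

`K = ℚ(ω)`, `E : y² + y = x³`, `k ≥ 2`. Let `D` be a cube-free Eisenstein integer, congruent to `1`
modulo `3`, with all prime factors of norm congruent to `1` modulo `3 ^ (k + 1)`, and let `χ` be a
product of characters of exact order `3 ^ k` modulo the `m` prime factors `π` of `D` such that
`χ ^ 3 ^ (k - 1)` is the cubic residue symbol of `D`. Let `A` be the abelian variety over `K` of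
dimension `3 ^ (k - 1)` that is the twist of `E ⊗ ℤ[ζ]` by `χ`.

* The values at `1` of the `L`-functions of `ψ χ ^ t`, `t` prime to `3`, are
  `Ω (1 - ζ) ^ (m - 1) u` and that of the `L`-function of `A` is
  `Ω ^ (2 * 3 ^ (k - 1)) 3 ^ (m - 1) u`, where `u` is integral above `3`; it is a unit above `3` if
  and only if `D` does not split as `d₀ d₁ d₂` with coprime factors, at least two of them not units,
  such that `d₁ d₂²`, `d₂ d₀²`, `d₀ d₁²` are cubes modulo the primes dividing `d₀`, `d₁`, `d₂`, and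
  `D` is not `1` modulo `9`.
* Both sides of the `3`-part of the Birch and Swinnerton-Dyer formula for `A` have this least
  order, with `A(K)` of order `3` and `Ш(A / K)` without elements of order `3`, if and only if `D`
  is such; this holds for at least `c X (log X) ^ (δ - 1)` of the `D` of norm at most `X`, and, as
  `X` grows, for the proportion `∏ (1 - 3 ^ (-(2 i + 1))) = 0.6390...` of the `D` that are not `1`
  modulo `9`.

The definitions are in `Pool.Agent.E8helper18.CP3.ST` and `Pool.Agent.Y715.T.St`.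
-/

open Pool.Agent.Y715.T.St Pool.Agent.E8helper18.CP3 Filter

/-- The exact proportion of the `D` for which the `3`-part of the Birch and Swinnerton-Dyer formula
holds with both sides of the least order. -/
theorem Pool.Agent.Results.MP_dfae13_nt.ExactThreeProportionH18.result (k : ℕ) (hk : 2 ≤ k) :
    -- the values of the `L`-functions
    (∀ D, Adm k D → D ≠ 1 → ∀ x : Twist k D,
      Values x fun u => ThreeInt u ∧ (ThreeUnit u ↔ Good D)) ∧
    -- the criterion
    (∀ D, Adm k D → D ≠ 1 → (ThreePart k D ↔ Good D)) ∧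
    -- the number of the `D` that satisfy it
    (∃ c : ℝ, 0 < c ∧ ∃ δ : ℝ, 0 < δ ∧ ∀ᶠ X : ℕ in atTop, c * X * Real.log X ^ (δ - 1) ≤
      (({D : Eis | Adm k D ∧ ¬ (9 : Eis) ∣ D - 1 ∧ nrm D ≤ X ∧ ThreePart k D}).ncard : ℝ)) ∧
    -- their proportion
    Tendsto (fun X : ℕ =>
      (({D : Eis | Adm k D ∧ ¬ (9 : Eis) ∣ D - 1 ∧ nrm D ≤ X ∧ ThreePart k D}).ncard : ℝ) /
      (({D : Eis | Adm k D ∧ ¬ (9 : Eis) ∣ D - 1 ∧ nrm D ≤ X}).ncard : ℝ)) atTop
      (nhds (∏' i : ℕ, (1 - (1 / 3 : ℝ) ^ (2 * i + 1)))) ∧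
    (0.639 : ℝ) < ∏' i : ℕ, (1 - (1 / 3 : ℝ) ^ (2 * i + 1)) ∧
    ∏' i : ℕ, (1 - (1 / 3 : ℝ) ^ (2 * i + 1)) < 0.6391 :=
  Pool.Agent.E8helper18.CP3.main' Pool.Agent.E8helper26.CP3.t_EPA k hk
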