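import Pool.Agent.E8helper75.WR.All
import Pool.Agent.E8helper75.QI.Fin
import Pool.Agent.E8helper75.QI.Crit
import Pool.Agent.Y948.CQ.C2
import Pool.Agent.E8helper79.QI.ExK

/-!
# The 2-part of the Birch and Swinnerton-Dyer formula for the abelian surfaces
# `Res_{ℚ(i)/ℚ} (y² = x³ ± i D x)`

`K = ℚ(i)`, `D` is any primary squarefree Gaussian integer (any number of prime factors, no other
condition), `E : y² = x³ + u D x` with `u = i` or `u = -i`, and `A = Res_{K/ℚ} E` is its restriction of
scalars, an abelian surface over `ℚ`. The curve `E` is not isomorphic to its conjugate, so it is not a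
base change of a curve over `ℚ`, and as two curves with complex multiplication by `ℤ[i]` over `K` are
isogenous only if they are isomorphic, `A` is simple over `ℚ`. Its dual is `A`. Let
`z = L(A, 1) #A(ℚ)_tors² / (V_∞ ∏ c_p)`, which is zero or the order of `Ш(A/ℚ)` according to the
formula. With no hypothesis on the rank or on `Ш` we prove for all these surfaces:

* `L(A, s)` is entire, the Tamagawa numbers have the product `2 ^ n`, `n` the number of the prime factors
  of `D` in `ℤ[i]`, and the order of the torsion subgroup of `A(ℚ)` is twice an odd number;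
* `z` is integral at all the primes above two, and it is a unit there if and only if `A(ℚ)` is finite and
  `Ш(A/ℚ)` has no element of order two, if and only if the matrix `mat S` over `𝔽₂` of the quadratic
  residue symbols of the prime factors of `D` and of `i` is not singular;
* in this case the 2-part of the formula holds: `L(A, 1) ≠ 0`, `A(ℚ)` is finite, `Ш(A/ℚ)[2^∞] = 0` and `z`
  is a unit above two;
* the proportion of the `D` of norm at most `X` for which this holds, for `u = i` and for `u = -i`, tends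
  to `∏ (1 - 2 ^ (-(2 i + 1))) = 0.4194...`.

The surface is given by its points over algebraically closed fields `L`, `A(L) = E(K ⊗ L)`, the product of
the groups `E^φ(L)` over the two embeddings `φ` of `K`, with the action of the automorphisms of `L`
(`Pool.Agent.E8helper21.WR.Def`): `A(ℚ)` is the group of the invariants of the absolute Galois group
of `ℚ`, and `Ш(A/ℚ)` the group of the classes of its continuous cocycles with values in `A(ℚ̄)` that are
trivial at all the places of `ℚ`. The group `A(ℚ_p)` is the product of the groups `E(K_v)` for the places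
`v` above `p`, and `A⁰(ℚ_p)` the product of the groups `E⁰(K_v)`, as the Néron model of `A` over `ℤ_p` is
the restriction of scalars of that of `E`; `V_∞ = ∫_{A(ℝ)} |ω|` is twice the area of a period
parallelogram of `E` divided by the square root of `|disc K|`, as the invariant differentials of the
Néron model of `A` are the traces of the multiples of that of `E` by the inverse different. All the Euler
factors are in `L(A, s)`, which is the `L`-function of `E` over `K` (its factor at `p` is the product of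
the factors of `E` at the places above `p`), so that the factor of `V_bad` at a bad prime `p`, which is
`c_p #𝒜⁰(𝔽_p) / p²`, is replaced by the Tamagawa number `c_p = [A(ℚ_p) : A⁰(ℚ_p)]`.

Proof: the isomorphisms `A(ℚ) = E(K)` and `Ш(A/ℚ) = Ш(E/K)` (Shapiro's lemma, global and local) are proved
for every number field `K` in `Pool/Agent/E8helper*/WR`; the values of the `L`-functions and the descent
over `K` are in `Pool/Agent/E8helper*/QI`, `QK`, `Q2`, the distribution of the matrices in
`Pool.Agent.E8helper79`. (Seats: helpers 6, 7, 10, 15, 22, 23, 27, 35, 36, 39, 41, 44, 52, 55, 69, 75, 79,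
81, 85, 89, 91, 93, 95, 97, 99.)
-/

set_option autoImplicit false

namespace Pool.Agent.Results.MP_dfae13_nt.QuarticSurfacesH75

open NumberField IsDedekindDomain WeierstrassCurve
open Pool.Agent.E8helper21.WR (AP AQ ShaA)

/-- `g` is primary: `g ≡ 1` modulo `2 + 2i`. -/
def Primary (g : GaussianInt) : Prop := (⟨2, 2⟩ : GaussianInt) ∣ g - 1

/-- `u` is `i` or `-i`. -/
def Coef (u : GaussianInt) : Prop := u = ⟨0, 1⟩ ∨ u = ⟨0, -1⟩

/-- The curve `y² = x³ + u D x` over `K`, where `e` is an isomorphism of the ring of Gaussian integers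
with the ring of integers of `K`. -/
noncomputable def curve {K : Type} [Field K] [NumberField K] (e : GaussianInt ≃+* 𝓞 K)
    (u D : GaussianInt) : WeierstrassCurve K :=
  ⟨0, 0, 0, algebraMap (𝓞 K) K (e (u * D)), 0⟩

open scoped Classical in
/-- The group `A(ℚ_p) = E(K ⊗ ℚ_p)`, the product of the groups `E(K_v)` for the places `v` above `p`. -/
abbrev LocalPoints {K : Type} [Field K] [NumberField K] (E : WeierstrassCurve K) (p : ℕ) : Type :=
  ∀ v : {v : HeightOneSpectrum (𝓞 K) // (p : 𝓞 K) ∈ v.asIdeal},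
    (E.baseChange (v.1.adicCompletion K)).toAffine.Point

open scoped Classical in
/-- The equation `E` is minimal at every finite place of `K`, `c p` is the index in `A(ℚ_p)` of the group
`A⁰(ℚ_p)` of the points all of whose components have nonsingular reduction, for all primes `p`, and it is
`1` for almost all `p`. -/
def IsTamagawa {K : Type} [Field K] [NumberField K] (E : WeierstrassCurve K)
    (c : Nat.Primes → ℕ) : Prop :=
  (∀ v : HeightOneSpectrum (𝓞 K),
    (E.baseChange (v.adicCompletion K)).IsMinimal (v.adicCompletionIntegers K)) ∧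
  (∀ p : Nat.Primes, ∃ H : AddSubgroup (LocalPoints E p),
    (∀ P : LocalPoints E p, P ∈ H ↔
      ∀ v : {v : HeightOneSpectrum (𝓞 K) // ((p : ℕ) : 𝓞 K) ∈ v.asIdeal},
        Pool.Agent.Y696.NonsingRed Valued.v (E.baseChange (v.1.adicCompletion K)) (P v)) ∧
      H.index = c p) ∧
  {p | c p ≠ 1}.Finite

/-- `Λ` is the lattice of periods of the differential `dx / (2y + a₁x + a₃)` of the curve `E`, embedded
in the complex numbers by `σ`. -/
def IsPeriodLattice {K : Type} [Field K] (E : WeierstrassCurve K) (σ : K →+* ℂ)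
    (Λ : PeriodPair) : Prop :=
  Λ.g₂ = σ E.c₄ / 12 ∧ Λ.g₃ = σ E.c₆ / 216

/-- `V_∞ = ∫_{A(ℝ)} |ω|`: twice the area of a period parallelogram, divided by `√|disc K|`. -/
noncomputable def Vinf (K : Type) [Field K] [NumberField K] (Λ : PeriodPair) : ℝ :=
  2 * |((starRingEnd ℂ) Λ.ω₁ * Λ.ω₂).im| / √|(discr K : ℝ)|

/-- The order of the torsion subgroup of `A(ℚ)`. -/
noncomputable def torsOrder {K : Type} [Field K] (E : WeierstrassCurve K) : ℕ :=
  Nat.card (AddCommGroup.torsion (AQ E))

/-- The order of the Tate-Shafarevich group predicted by the formula in rank zero, for the value `l` of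
the L-function at `s = 1`: `l #A(ℚ)_tors² / (V_∞ ∏ c_p)`. -/
noncomputable def anOrder {K : Type} [Field K] [NumberField K] (E : WeierstrassCurve K) (l : ℂ)
    (Λ : PeriodPair) (c : Nat.Primes → ℕ) : ℂ :=
  l * (torsOrder E : ℂ) ^ 2 / ((Vinf K Λ : ℂ) * ((∏ᶠ p, c p : ℕ) : ℂ))

/-- `L` is an entire continuation of the L-series of `A` over `ℚ`, that is, of `E` over `K`. -/
def IsL {K : Type} [Field K] [NumberField K] (E : WeierstrassCurve K) (L : ℂ → ℂ) : Prop :=
  Differentiable ℂ L ∧ ∀ s : ℂ, 3 / 2 < s.re →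
    LSeriesSummable ((fun n : ℤ => (n : ℂ)) ∘ E.LFunction) s ∧ L s = E.LSeries s

open Classical in
/-- `0` if `a` is a square modulo `p`, and `1` if it is not. -/
noncomputable def nonsq (a p : GaussianInt) : ZMod 2 := if ∃ b : GaussianInt, p ∣ b ^ 2 - a then 0 else 1

/-- The matrix over the field with two elements, with rows and columns indexed by the set `S` of primary
primes of `ℤ[i]`: the entry at `(p, q)` is `nonsq p q` for `p ≠ q`, and the entry at `(p, p)` is the sum
of `nonsq i p` and of the `nonsq p q` for the `q ≠ p` in `S`. -/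
noncomputable def mat (S : Finset GaussianInt) : Matrix S S (ZMod 2) := Matrix.of fun p q =>
  if q = p then nonsq ⟨0, 1⟩ p + ∑ r ∈ S.erase (p : GaussianInt), nonsq p r else nonsq p q

/-- The 2-part of the formula for the restriction of scalars `A` of the curve `E` over an imaginary
quadratic field `K`, in the case that the predicted order of `Ш` is a unit above two: `A(ℚ)` is finite,
the 2-primary part of `Ш(A/ℚ)` is trivial, `L(A, s)` is entire, `L(A, 1) ≠ 0`, and the predicted order of
`Ш(A/ℚ)` is a unit at every valuation `w` of the field of complex numbers with `w 2 < 1`. -/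
def TwoPart {K : Type} [Field K] [NumberField K] (E : WeierstrassCurve K) : Prop :=
  Finite (AQ E) ∧ (∀ (n : ℕ) (x : ShaA E), 2 ^ n • x = 0 → x = 0) ∧
  ∃ (L : ℂ → ℂ) (c : Nat.Primes → ℕ), IsL E L ∧ L 1 ≠ 0 ∧ IsTamagawa E c ∧
    ∀ σ : K →+* ℂ, (∃ Λ : PeriodPair, IsPeriodLattice E σ Λ) ∧
      ∀ Λ : PeriodPair, IsPeriodLattice E σ Λ →
        ∀ (Γ : Type) [LinearOrderedCommGroupWithZero Γ] (w : Valuation ℂ Γ), w 2 < 1 →
          w (anOrder E (L 1) Λ c) = 1

/-- The group `A(ℚ)` is finite and `Ш(A/ℚ)` has no element of order two. -/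
def NoSelmer {K : Type} [Field K] [NumberField K] (E : WeierstrassCurve K) : Prop :=
  Finite (AQ E) ∧ ∀ x : ShaA E, 2 • x = 0 → x = 0

/-- The curve `E` over `K` is not isomorphic over `K` to its conjugate by an automorphism `τ ≠ 1` of `K`. -/
def NotConj {K : Type} [Field K] (E : WeierstrassCurve K) : Prop :=
  ∀ τ : K ≃+* K, (∃ x, τ x ≠ x) → ∀ C : VariableChange K, C • E ≠ E.map (τ : K →+* K)

/-- The statement for the surface `A`, the restriction of scalars of the curve `y² = x³ + u D x` with the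
primary `D = ∏ p`, `p ∈ S`. -/
def Criterion {K : Type} [Field K] [NumberField K] (e : GaussianInt ≃+* 𝓞 K) (u : GaussianInt)
    (S : Finset GaussianInt) : Prop :=
  NotConj (curve e u (∏ p ∈ S, p)) ∧
  (∃ (L : ℂ → ℂ) (c : Nat.Primes → ℕ), IsL (curve e u (∏ p ∈ S, p)) L ∧
    IsTamagawa (curve e u (∏ p ∈ S, p)) c ∧ ∏ᶠ p, c p = 2 ^ S.card ∧
    (∃ t : ℕ, Odd t ∧ torsOrder (curve e u (∏ p ∈ S, p)) = 2 * t) ∧
    ∀ σ : K →+* ℂ, (∃ Λ : PeriodPair, IsPeriodLattice (curve e u (∏ p ∈ S, p)) σ Λ) ∧
      ∀ Λ : PeriodPair, IsPeriodLattice (curve e u (∏ p ∈ S, p)) σ Λ →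
        ∀ (Γ : Type) [LinearOrderedCommGroupWithZero Γ] (w : Valuation ℂ Γ), w 2 < 1 →
          w (anOrder (curve e u (∏ p ∈ S, p)) (L 1) Λ c) ≤ 1 ∧
          (w (anOrder (curve e u (∏ p ∈ S, p)) (L 1) Λ c) = 1 ↔
            NoSelmer (curve e u (∏ p ∈ S, p)))) ∧
  (NoSelmer (curve e u (∏ p ∈ S, p)) ↔ (mat S).det ≠ 0) ∧
  ((mat S).det ≠ 0 → TwoPart (curve e u (∏ p ∈ S, p)))

/-- The primary squarefree Gaussian integers of norm at most `X`. -/
def Family (X : ℕ) : Set GaussianInt := {D | D.norm.natAbs ≤ X ∧ Primary D ∧ Squarefree D}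

/-- Those `D` such that the 2-part of the formula holds for the two surfaces, the restrictions of scalars
of `y² = x³ + u D x`, `u = i` and `u = -i`, over `K = ℚ(i)` (every number field `K` with an isomorphism
`e` of `ℤ[i]` with its ring of integers), with predicted orders of `Ш` that are units above two. -/
def Proved (X : ℕ) : Set GaussianInt :=
  {D | D ∈ Family X ∧ ∀ (K : Type) [Field K] [NumberField K] (e : GaussianInt ≃+* 𝓞 K)
    (u : GaussianInt), Coef u → TwoPart (curve e u D)}

section proof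

open Pool.Agent.E8helper75.WR (a_SHA a_R8 a_IDX a_PRD a_NBC smul_iff card_tors index_loc)
open Pool.Agent.Y697.MQ (OP gA gθ Pr_iff)
open Pool.Agent.Y697.PP (SS mem_SS Dt NS prod_inj)

variable {K : Type} [Field K] [NumberField K]

open scoped Classical in
lemma fin_iff (E : WeierstrassCurve K) : Finite (AQ E) ↔ Finite E.toAffine.Point := by
  obtain ⟨f⟩ := a_R8 K E
  exact f.toEquiv.finite_iff

lemma tors_eq (E : WeierstrassCurve K) : torsOrder E = Pool.Agent.E8helper75.QI.C.torsOrder E := by
  classical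
  obtain ⟨f⟩ := a_R8 K E
  unfold torsOrder Pool.Agent.E8helper75.QI.C.torsOrder
  rw [card_tors f]

lemma sha_iff (E : WeierstrassCurve K) (m : ℕ) : (∀ x : ShaA E, m • x = 0 → x = 0) ↔
    ∀ x : Pool.Agent.TH841.NF.D.Sha E, m • x = 0 → x = 0 := by
  obtain ⟨f⟩ := a_SHA K E
  exact smul_iff f m

lemma nosel_iff (E : WeierstrassCurve K) : NoSelmer E ↔ Pool.Agent.E8helper75.QI.C.NoSelmer E := by
  classical
  unfold NoSelmer Pool.Agent.E8helper75.QI.C.NoSelmer
  rw [sha_iff E 2, fin_iff E]

/-- the Tamagawa numbers of the surface -/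
noncomputable def cA (c : HeightOneSpectrum (𝓞 K) → ℕ) (p : Nat.Primes) : ℕ :=
  ∏ᶠ v : {v : HeightOneSpectrum (𝓞 K) // ((p : ℕ) : 𝓞 K) ∈ v.asIdeal}, c v

lemma tam {E : WeierstrassCurve K} {c : HeightOneSpectrum (𝓞 K) → ℕ}
    (h : Pool.Agent.E8helper75.QI.C.IsTamagawa E c) :
    IsTamagawa E (cA c) ∧ ∏ᶠ p, cA c p = ∏ᶠ v, c v := by
  obtain ⟨h1, h2, h3⟩ := a_PRD K c h.2
  refine ⟨⟨fun v => (h.1 v).1, fun p => ?_, h2⟩, h3⟩
  exact index_loc a_IDX (h1 p) E (fun v P => Pool.Agent.Y696.NonsingRed Valued.v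
    (E.baseChange (v.adicCompletion K)) P) c fun v => (h.1 v).2

lemma discr_ne : √|(discr K : ℝ)| ≠ 0 := by
  have h := NumberField.discr_ne_zero K
  have h1 : (0 : ℝ) < |(discr K : ℝ)| := abs_pos.2 (by exact_mod_cast h)
  exact (Real.sqrt_pos.2 h1).ne'

lemma an_eq {E : WeierstrassCurve K} {c : HeightOneSpectrum (𝓞 K) → ℕ}
    (h : Pool.Agent.E8helper75.QI.C.IsTamagawa E c) (l : ℂ) (Λ : PeriodPair) :
    anOrder E l Λ (cA c) = Pool.Agent.E8helper75.QI.C.anOrder E l Λ c := by
  unfold anOrder Pool.Agent.E8helper75.QI.C.anOrder Vinf Pool.Agent.E8helper75.QI.C.period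
  rw [tors_eq, (tam h).2]
  have h1 : ((√|(discr K : ℝ)| : ℝ) : ℂ) ≠ 0 := by
    exact_mod_cast (discr_ne (K := K))
  push_cast
  field_simp

lemma two_of {E : WeierstrassCurve K} (h : Pool.Agent.E8helper75.QI.C.TwoPart E) : TwoPart E := by
  classical
  obtain ⟨h1, h2, L, c, h3, h4, h5, h6⟩ := h
  refine ⟨(fin_iff E).2 h1, fun n => (sha_iff E (2 ^ n)).2 (h2 n), L, cA c, h3, h4,
    (tam h5).1, fun σ => ⟨(h6 σ).1, fun Λ hΛ Γ _ w hw => ?_⟩⟩
  rw [an_eq h5]
  exact (h6 σ).2 Λ hΛ Γ w hw

lemma op_iff (p : GaussianInt) : Prime p ∧ Primary p ↔ OP p :=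
  Pool.Agent.E8helper75.QI.C.op_iff p

theorem criterion (e : GaussianInt ≃+* 𝓞 K) {u : GaussianInt} (hu : Coef u) {S : Finset GaussianInt}
    (hS : ∀ l ∈ S, OP l) : Criterion e u S := by
  obtain ⟨⟨L, c, h1, h2, h3, ⟨t, ht, ht'⟩, h4⟩, h5, h6⟩ := Pool.Agent.E8helper75.QI.C.crit_I e hu hS
  have hu2 : u ≠ 2 := by
    rcases hu with rfl | rfl <;> decide
  rw [if_neg hu2, one_mul] at h3
  have hD : Primary (∏ p ∈ S, p) :=
    (Pr_iff _).1 (Pool.Agent.Y697.MQ.Pr_prod fun x hx => (hS x hx).pm)
  have hsq : Squarefree (∏ p ∈ S, p) := Pool.Agent.R428.G.sqf_prod hS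
  refine ⟨a_NBC K e u _ hu hsq hD, ⟨L, cA c, h1, (tam h2).1, (tam h2).2.trans h3, ⟨t, ht, ?_⟩,
    fun σ => ⟨(h4 σ).1, fun Λ hΛ Γ _ w hw => ?_⟩⟩, ?_, fun h => two_of (h6 h)⟩
  · rw [tors_eq]
    exact ht'
  · have h7 := (h4 σ).2 Λ hΛ Γ w hw
    have e1 : anOrder (curve e u (∏ p ∈ S, p)) (L 1) Λ (cA c) =
        Pool.Agent.E8helper75.QI.C.anOrder (Pool.Agent.E8helper75.QI.C.curve e u (∏ p ∈ S, p))
          (L 1) Λ c := an_eq h2 _ _
    rw [e1, nosel_iff]
    exact h7
  · rw [nosel_iff]
    exact h5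

theorem family_finite (X : ℕ) : (Family X).Finite :=
  (Pool.Agent.Y699.fin_norm_le X).subset fun _ h => h.1

theorem family_eq (X : ℕ) : Family X =
    (((SS X).image fun S => ∏ p ∈ S, p : Finset GaussianInt) : Set GaussianInt) := by
  classical
  ext D
  rw [Finset.mem_coe, Finset.mem_image]
  constructor
  · rintro ⟨h1, h2, h3⟩
    obtain ⟨T, hT, e, he, hDe⟩ := Pool.Agent.Y697.MQ.exists_ker2 D ((Pr_iff D).2 h2)
    have he1 : e = 1 := by
      apply he.unit
      apply h3 e
      rw [hDe, pow_two]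
      exact dvd_mul_left _ _
    rw [he1, one_pow, mul_one] at hDe
    refine ⟨T, mem_SS.2 ⟨fun p hp => (hT p hp).1, ?_⟩, hDe.symm⟩
    unfold NS
    rw [← hDe]
    exact h1
  · rintro ⟨S, hS, rfl⟩
    rw [mem_SS] at hS
    exact ⟨hS.2, (Pr_iff _).1 (Pool.Agent.Y697.MQ.Pr_prod fun x hx => (hS.1 x hx).pm),
      Pool.Agent.R428.G.sqf_prod hS.1⟩

theorem family_card (X : ℕ) : (Family X).ncard = (SS X).card := by
  classical
  rw [family_eq, Set.ncard_coe_finset, Finset.card_image_of_injOn]
  intro S hS T hT h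
  rw [Finset.mem_coe, mem_SS] at hS hT
  exact prod_inj hS.1 hT.1 h

open scoped Classical in
theorem proved_card (X : ℕ) : (Proved X).ncard = ((SS X).filter fun S => Dt S).card := by
  have h1 : Proved X = ((((SS X).filter fun S => Dt S).image fun S => ∏ p ∈ S, p :
      Finset GaussianInt) : Set GaussianInt) := by
    ext D
    rw [Finset.mem_coe, Finset.mem_image]
    constructor
    · rintro ⟨h1, h2⟩
      rw [family_eq, Finset.mem_coe, Finset.mem_image] at h1
      obtain ⟨S, hS, rfl⟩ := h1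
      refine ⟨S, ?_, rfl⟩
      rw [Finset.mem_filter]
      refine ⟨hS, ?_⟩
      rw [mem_SS] at hS
      obtain ⟨g1, g2, -⟩ := h2 Pool.Agent.E8helper21.QT.GF Pool.Agent.E8helper21.QT.eGF ⟨0, 1⟩
        (Or.inl rfl)
      have h4 := (criterion Pool.Agent.E8helper21.QT.eGF (u := ⟨0, 1⟩) (Or.inl rfl)
        hS.1).2.2.1.1 ⟨g1, fun x hx => g2 1 x (by rw [pow_one]; exact hx)⟩
      have h5 : (Pool.Agent.E8helper75.QI.C.mat S).det ≠ 0 := h4
      rw [Pool.Agent.E8helper75.QI.C.mat_eq hS.1] at h5
      exact h5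
    · rintro ⟨S, hS, rfl⟩
      rw [Finset.mem_filter] at hS
      refine ⟨?_, fun K _ _ e u hu => ?_⟩
      · rw [family_eq, Finset.mem_coe, Finset.mem_image]
        exact ⟨S, hS.1, rfl⟩
      · have hS1 := (mem_SS.1 hS.1).1
        apply (criterion e hu hS1).2.2.2
        have h5 : (Pool.Agent.E8helper75.QI.C.mat S).det ≠ 0 := by
          rw [Pool.Agent.E8helper75.QI.C.mat_eq hS1]
          exact hS.2
        exact h5
  rw [h1, Set.ncard_coe_finset, Finset.card_image_of_injOn]
  intro S hS T hT h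
  rw [Finset.mem_coe, Finset.mem_filter, mem_SS] at hS hT
  exact prod_inj hS.1.1 hT.1.1 h

end proof

/-- **Main theorem.** For every finite set `S` of primary primes the statement `Criterion` holds for the
restrictions of scalars of the two curves `y² = x³ + u D x`, `u = i` and `u = -i`, `D = ∏ p`; and the
proportion of the primary squarefree `D` of norm at most `X` that satisfy `TwoPart` for both of them tends
to `∏ (1 - 2 ^ (-(2 i + 1))) = 0.4194...` as `X` grows. -/
theorem result :
    (∀ (K : Type) [Field K] [NumberField K] (e : GaussianInt ≃+* 𝓞 K) (u : GaussianInt)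
      (S : Finset GaussianInt), Coef u → (∀ p ∈ S, Prime p ∧ Primary p) → Criterion e u S) ∧
    Filter.Tendsto (fun X : ℕ => ((Proved X).ncard : ℝ) / ((Family X).ncard : ℝ)) Filter.atTop
      (nhds (∏' i : ℕ, (1 - (1 / 2 : ℝ) ^ (2 * i + 1)))) ∧
    (0.4194 : ℝ) < ∏' i : ℕ, (1 - (1 / 2 : ℝ) ^ (2 * i + 1)) ∧
    ∏' i : ℕ, (1 - (1 / 2 : ℝ) ^ (2 * i + 1)) < (0.4195 : ℝ) := by
  classical
  refine ⟨fun K _ _ e u S hu hS => criterion e hu fun p hp => (op_iff p).1 (hS p hp), ?_,
    Pool.Agent.Y948.CQ.t_C2.2.2.2⟩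
  have h := Pool.Agent.E8helper79.QI.t_EXK
  unfold Pool.Agent.E8helper75.QI.S_EXK at h
  refine h.congr fun X => ?_
  rw [family_card, proved_card]

end Pool.Agent.Results.MP_dfae13_nt.QuarticSurfacesH75
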